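import Pool.Agent.Work.MP_6d7a54_an.NF.B_2A
import Pool.Agent.Work.MP_6d7a54_an.NF.B_2B
import Pool.Agent.Work.MP_6d7a54_an.NF.B_Bez
import Pool.Agent.Work.MP_6d7a54_an.NF.B_Bor
import Pool.Agent.Work.MP_6d7a54_an.NF.B_CV1
import Pool.Agent.Work.MP_6d7a54_an.NF.B_CV2
import Pool.Agent.Work.MP_6d7a54_an.NF.B_Chi
import Pool.Agent.Work.MP_6d7a54_an.NF.B_Cop
import Pool.Agent.Work.MP_6d7a54_an.NF.B_Dext
import Pool.Agent.Work.MP_6d7a54_an.NF.B_Dim
import Pool.Agent.Work.MP_6d7a54_an.NF.B_Elim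
import Pool.Agent.Work.MP_6d7a54_an.NF.B_F3
import Pool.Agent.Work.MP_6d7a54_an.NF.B_F3b
import Pool.Agent.Work.MP_6d7a54_an.NF.B_Fin
import Pool.Agent.Work.MP_6d7a54_an.NF.B_HF
import Pool.Agent.Work.MP_6d7a54_an.NF.B_Int
import Pool.Agent.Work.MP_6d7a54_an.NF.B_JH
import Pool.Agent.Work.MP_6d7a54_an.NF.B_KS
import Pool.Agent.Work.MP_6d7a54_an.NF.B_LA
import Pool.Agent.Work.MP_6d7a54_an.NF.B_Mon
import Pool.Agent.Work.MP_6d7a54_an.NF.B_NZ
import Pool.Agent.Work.MP_6d7a54_an.NF.B_ODE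
import Pool.Agent.Work.MP_6d7a54_an.NF.B_PP
import Pool.Agent.Work.MP_6d7a54_an.NF.B_Pl
import Pool.Agent.Work.MP_6d7a54_an.NF.B_Red
import Pool.Agent.Work.MP_6d7a54_an.NF.B_Rt
import Pool.Agent.Work.MP_6d7a54_an.NF.B_Ser
import Pool.Agent.Work.MP_6d7a54_an.NF.B_St1
import Pool.Agent.Work.MP_6d7a54_an.NF.B_St2
import Pool.Agent.Work.MP_6d7a54_an.NF.B_T3
import Pool.Agent.Work.MP_6d7a54_an.NF.B_T3R
import Pool.Agent.Work.MP_6d7a54_an.NF.B_Tay
import Pool.Agent.Work.MP_6d7a54_an.NF.B_Val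
import Pool.Agent.Work.MP_6d7a54_an.NF.B_qd
import Pool.Agent.Work.MP_6d7a54_an.NF.B_r1
import Pool.Agent.Work.MP_6d7a54_an.NF.C_ACF
import Pool.Agent.Work.MP_6d7a54_an.NF.C_Geo
import Pool.Agent.Work.MP_6d7a54_an.NF.C_Main
import Pool.Agent.Work.MP_6d7a54_an.NF.C_NC0
import Pool.Agent.Work.MP_6d7a54_an.NF.C_Three
import Pool.Agent.Work.MP_6d7a54_an.NF.C_Tr
import Pool.Agent.Work.MP_6d7a54_an.NF.I_AC
import Pool.Agent.Work.MP_6d7a54_an.NF.I_CL
import Pool.Agent.Work.MP_6d7a54_an.NF.I_Cen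
import Pool.Agent.Work.MP_6d7a54_an.NF.I_Conf
import Pool.Agent.Work.MP_6d7a54_an.NF.I_DF
import Pool.Agent.Work.MP_6d7a54_an.NF.I_Diag
import Pool.Agent.Work.MP_6d7a54_an.NF.I_GB
import Pool.Agent.Work.MP_6d7a54_an.NF.I_LD
import Pool.Agent.Work.MP_6d7a54_an.NF.I_Mx
import Pool.Agent.Work.MP_6d7a54_an.NF.I_Nev
import Pool.Agent.Work.MP_6d7a54_an.NF.I_Rad
import Pool.Agent.Work.MP_6d7a54_an.NF.I_RadF
import Pool.Agent.Work.MP_6d7a54_an.NF.I_Schw
import Pool.Agent.Work.MP_6d7a54_an.NF.I_Seid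
import Pool.Agent.Work.MP_6d7a54_an.NF.I_TTm
import Pool.Agent.Work.MP_6d7a54_an.NF.I_avg
import Pool.Agent.Work.MP_6d7a54_an.NF.I_crit
import Pool.Agent.Work.MP_6d7a54_an.NF.I_ev
import Pool.Agent.Work.MP_6d7a54_an.NF.I_fin
import Pool.Agent.Work.MP_6d7a54_an.NF.I_ideal
import Pool.Agent.Work.MP_6d7a54_an.NF.I_lo
import Pool.Agent.Work.MP_6d7a54_an.NF.I_lo2
import Pool.Agent.Work.MP_6d7a54_an.NF.I_prime
import Pool.Agent.Work.MP_6d7a54_an.NF.I_s1
import Pool.Agent.Work.MP_6d7a54_an.NF.I_s3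
import Pool.Agent.Work.MP_6d7a54_an.NF.I_s7
import Pool.Agent.Work.MP_6d7a54_an.NF.I_s8

/-!
# The Kobayashi-Royden metric of the complement of a plane curve with three components

Partial answer to Q1 of MP_6d7a54_an in dimension `n = 2`.
-/

namespace Pool.Agent.Results.MP_6d7a54_an.ThreeComponents

open MvPolynomial Pool.Agent.Work.MP_6d7a54_an.NF

/-- Let `X` be a plane curve of degree at least four with only normal crossing singularities and
with at least three irreducible components (that is, its equation is a product of three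
nonconstant factors). Then the infinitesimal Kobayashi pseudometric of the complement of `X` is
positive on all nonzero tangent vectors at every point outside a proper plane curve. -/
theorem result (d : ℕ) (X : MvPolynomial (Fin 3) ℂ) (hX : X.IsHomogeneous d) (hd : 4 ≤ d)
    (hnc : NormalCrossing X)
    (h3 : ∃ A B C : MvPolynomial (Fin 3) ℂ, ¬ IsUnit A ∧ ¬ IsUnit B ∧ ¬ IsUnit C ∧
      X = A * B * C) :
    ∃ (Q : MvPolynomial (Fin 3) ℂ) (N : ℕ), Q ≠ 0 ∧ Q.IsHomogeneous N ∧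
      ∀ w ∈ complementCone X, eval w Q ≠ 0 → ∀ v : Fin 3 → ℂ, (∀ c : ℂ, v ≠ c • w) →
        0 < kobayashiRoyden (complementCone X) w v := by
  have h_HF : S_HF := HF_proof
  have h_Mx : S_Mx := Mx_proof
  have h_Conf : S_Conf := Conf_proof h_Mx
  have h_ev : S_ev := ev_proof
  have h_GB : S_GB := GB_proof
  have h_crit : S_crit := crit_proof h_Mx
  have h_ideal : S_ideal := ideal_proof h_Mx h_ev h_GB h_crit
  have h_CL : S_CL := CL_proof
  have h_avg : S_avg := avg_proof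
  have h_prime : S_prime := prime_proof h_Mx h_GB h_CL h_avg
  have h_Diag : S_Diag := Diag_proof
  have h_Cen : S_Cen := Cen_proof h_Diag h_Mx h_GB h_CL h_avg
  have h_Schw : S_Schw := Schw_proof
  have h_TTm : S_TTm := TTm_proof
  have h_LD : S_LD := LD_proof
  have h_RadF : S_RadF := RadF_proof h_CL h_LD
  have h_Rad : S_Rad := Rad_proof h_Diag h_Mx h_ev h_GB h_Schw h_TTm h_RadF
  have h_s1 : S_s1 := s1_proof h_Mx
  have h_s3 : S_s3 := s3_proof h_Mx h_ev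
  have h_s7 : S_s7 := s7_proof h_Mx h_ev h_GB
  have h_s8 : S_s8 := s8_proof h_Mx
  have h_lo : S_lo := lo_proof h_Mx h_ev
  have h_fin : S_fin := fin_proof h_Mx h_ev h_ideal
  have h_lo2 : S_lo2 := lo2_proof h_Mx h_ev h_fin h_lo
  have h_DF : S_DF := DF_proof
  have h_Seid : S_Seid := Seid_proof
  have h_AC : S_AC := AC_proof h_DF h_Seid
  have h_Nev : S_Nev := Nev_proof h_Conf h_ideal h_prime h_Cen h_Rad h_s1 h_s3 h_s7 h_s8 h_lo h_lo2 h_AC
  have h_KS : S_KS := KS_proof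
  have h_Bez : S_Bez := Bez_proof
  have h_JH : S_JH := JH_proof
  have h_Int : S_Int := Int_proof h_Bez
  have h_Bor : S_Bor := Bor_proof
  have h_Elim : S_Elim := Elim_proof
  have h_F3 : S_F3 := F3_proof h_HF h_Bez h_JH
  have h_F3b : S_F3b := F3b_proof h_Int h_JH h_F3
  have h_qd : S_qd := qd_proof
  have h_Tay : S_Tay := Tay_proof
  have h_Chi : S_Chi := Chi_proof h_Bor
  have h_Red : S_Red := Red_proof
  have h_Val : S_Val := Val_proof h_Tay h_Red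
  have h_Dim : S_Dim := Dim_proof
  have h_Cop : S_Cop := Cop_proof h_Bez h_JH h_F3
  have h_r1 : S_r1 := r1_proof h_Dim h_JH h_Cop h_qd
  have h_Rt : S_Rt := Rt_proof
  have h_Ser : S_Ser := Ser_proof h_Tay h_Rt h_Int
  have h_LA : S_LA := LA_proof
  have h_ODE : S_ODE := ODE_proof h_Tay h_Chi h_Val h_r1 h_Ser h_LA
  have h_PP : S_PP := PP_proof
  have h_NZ : S_NZ := NZ_proof
  have h_St1 : S_St1 := St1_proof h_Bor h_Elim h_JH h_F3b h_Int h_qd h_ODE h_PP h_NZ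
  have h_Dext : S_Dext := Dext_proof
  have h_Fin : S_Fin := Fin_proof h_Dim
  have h_CV1 : S_CV1 := CV1_proof h_HF h_Bez h_JH h_Fin
  have h_2A : S_2A := TwoA_proof h_r1 h_Int h_Dext h_CV1 h_qd
  have h_Pl : S_Pl := Pl_proof h_Int h_JH
  have h_CV2 : S_CV2 := CV2_proof h_HF h_Bez h_JH h_Fin
  have h_2B : S_2B := TwoB_proof h_Pl h_CV2 h_Int
  have h_Mon : S_Mon := Mon_proof h_Bor h_Int
  have h_St2 : S_St2 := St2_proof h_2A h_2B h_Mon
  have h_T3R : S_T3R := T3R_proof h_HF h_Bez h_JH h_Int h_St1 h_St2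
  have h_T3 : S_T3 := T3_proof h_KS h_T3R
  have h_ACF : S_ACF := ACF_proof
  have h_NC0 : S_NC0 := NC0_proof
  have h_Tr : S_Tr := Tr_proof
  have h_Geo : S_Geo := Geo_proof
  have h_Main3 : S_Main3 := Main3_proof h_Nev h_T3 h_ACF h_NC0 h_Tr h_Geo
  exact Three_proof h_HF h_Main3 d X hX hd hnc h3

end Pool.Agent.Results.MP_6d7a54_an.ThreeComponents
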